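import Pool.Agent.Y881.LW.Core

/-!
# The Lang-Waldschmidt inequality fails for all `ε < 1/7` without the factor `B`, and for all `ε < 3/14` with it

For every `m ≥ 8` there are infinitely many `Λ = a_1 ^ b_1 ⋯ a_m ^ b_m` with
`0 < |Λ - 1| ≤ K (log X) ^ 2 / X ^ (8 / 7)`, `X = ∏ |b_i| ∏ |a_i|`.  They are the members with `t = 2 ^ n` of the family
of `NoFactorB` (where `X = O(t ^ 15)` and `|Λ - 1| = O(t ^ (-16))`): the factor `t ^ c` is written `2 ^ (c n)`, which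
lowers the size to `X = O(n t ^ 14)`.
-/

set_option autoImplicit false

open Finset Filter

namespace Pool.Agent.Results.MP_4eb8d9_nt.PowersOfTwo

/-- `Λ = a_1 ^ b_1 ⋯ a_m ^ b_m` -/
noncomputable def lam {m : ℕ} (a b : Fin m → ℤ) : ℝ := ∏ i, ((a i : ℝ) ^ (b i))

/-- the product `|b_1| ⋯ |b_m| · |a_1| ⋯ |a_m|` -/
noncomputable def size {m : ℕ} (a b : Fin m → ℤ) : ℝ :=
  (∏ i, |((b i : ℤ) : ℝ)|) * (∏ i, |((a i : ℤ) : ℝ)|)

/-- `B = max |b_i|` -/
noncomputable def maxB {m : ℕ} (b : Fin m → ℤ) : ℝ :=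
  ((Finset.univ.sup fun i => (b i).natAbs : ℕ) : ℝ)

theorem ev (K c δ : ℝ) (j : ℕ) (hδ : 0 < δ) (hc : 0 < c) (hK : 0 < K) :
    ∀ᶠ x : ℝ in atTop, K * Real.log x ^ j < c * x ^ δ := by
  have h := (isLittleO_log_rpow_rpow_atTop (j : ℝ) hδ).def (show 0 < c / (2 * K) by positivity)
  filter_upwards [h, eventually_gt_atTop (1 : ℝ)] with x hx hx1
  have hl : 0 < Real.log x := Real.log_pos hx1
  have hxp : 0 < x ^ δ := Real.rpow_pos_of_pos (by linarith) _
  rw [Real.rpow_natCast, Real.norm_of_nonneg (by positivity), Real.norm_of_nonneg hxp.le] at hx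
  calc K * Real.log x ^ j ≤ K * (c / (2 * K) * x ^ δ) := mul_le_mul_of_nonneg_left hx hK.le
    _ = c / 2 * x ^ δ := by field_simp
    _ < c * x ^ δ := by nlinarith

/-- For every `m ≥ 8`:
(1) there are products `Λ ≠ 1` of `m` powers, with positive `a_i`, nonzero `b_i` and arbitrarily large
`X = ∏ |b_i| ∏ |a_i|`, such that `|Λ - 1| ≤ 10 ^ 120 (log X) ^ 2 / X ^ (8 / 7)` and
`X ^ (1 / 14) ≤ 10 ^ 6 B log X`;
(2) for all `ε < 1 / 7` and `C > 0` there are such products with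
`|Λ - 1| < C ^ m / X ^ (1 + ε)` (no factor `B`);
(3) for all `ε < 3 / 14` and `C > 0` there are such products with
`|Λ - 1| < C ^ m B / X ^ (1 + ε)`. -/
theorem result (m : ℕ) (hm : 8 ≤ m) :
    (∀ H : ℝ, ∃ a b : Fin m → ℤ, (∀ i, 0 < a i) ∧ (∀ i, b i ≠ 0) ∧ H < size a b ∧ lam a b ≠ 1 ∧
      |lam a b - 1| ≤ 10 ^ 120 * Real.log (size a b) ^ 2 / size a b ^ (8 / 7 : ℝ) ∧
      size a b ^ (1 / 14 : ℝ) ≤ 10 ^ 6 * (Real.log (size a b) * maxB b)) ∧
    (∀ ε C H : ℝ, ε < 1 / 7 → 0 < C → ∃ a b : Fin m → ℤ, (∀ i, 0 < a i) ∧ (∀ i, b i ≠ 0) ∧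
      H < size a b ∧ lam a b ≠ 1 ∧ |lam a b - 1| < C ^ m / size a b ^ (1 + ε)) ∧
    (∀ ε C H : ℝ, ε < 3 / 14 → 0 < C → ∃ a b : Fin m → ℤ, (∀ i, 0 < a i) ∧ (∀ i, b i ≠ 0) ∧
      H < size a b ∧ lam a b ≠ 1 ∧ |lam a b - 1| < C ^ m * maxB b / size a b ^ (1 + ε)) := by
  have main : ∀ H : ℝ, ∃ a b : Fin m → ℤ, (∀ i, 0 < a i) ∧ (∀ i, b i ≠ 0) ∧ H < size a b ∧
      lam a b ≠ 1 ∧ |lam a b - 1| ≤ 10 ^ 120 * Real.log (size a b) ^ 2 / size a b ^ (8 / 7 : ℝ) ∧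
      size a b ^ (1 / 14 : ℝ) ≤ 10 ^ 6 * (Real.log (size a b) * maxB b) := by
    intro H
    obtain ⟨k, rfl⟩ : ∃ k, m = 8 + k := ⟨m - 8, by omega⟩
    obtain ⟨N, hN⟩ := exists_nat_gt H
    obtain ⟨n, hn⟩ : ∃ n : ℕ, n = max N 24 := ⟨_, rfl⟩
    have hn24 : 24 ≤ n := by rw [hn]; exact le_max_right _ _
    have hnN : N ≤ n := by rw [hn]; exact le_max_left _ _
    have h2n : (n : ℝ) < (2 : ℝ) ^ n := by exact_mod_cast n.lt_two_pow_self
    have hnN' : (N : ℝ) ≤ (n : ℝ) := by exact_mod_cast hnN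
    obtain ⟨h1, h2, h3, h4, h5, h6⟩ := Pool.Agent.Y881.LW.core k n hn24
    exact ⟨Pool.Agent.Y881.LW.aP k n, Pool.Agent.Y881.LW.bP k n, h1, h2,
      lt_of_lt_of_le (by linarith) h4, h3, h5, h6⟩
  refine ⟨main, fun ε C H hε hC => ?_, fun ε C H hε hC => ?_⟩
  · obtain ⟨T, hT⟩ := Filter.eventually_atTop.1
      (ev (10 ^ 120) (C ^ m) (1 / 7 - ε) 2 (by linarith) (by positivity) (by positivity))
    obtain ⟨a, b, h1, h2, h3, h4, h5, -⟩ := main (max (max H T) 1)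
    have hX1 : 1 < size a b := lt_of_le_of_lt (le_max_right _ _) h3
    have hXH : H < size a b := lt_of_le_of_lt ((le_max_left _ _).trans (le_max_left _ _)) h3
    have hXT : T < size a b := lt_of_le_of_lt ((le_max_right _ _).trans (le_max_left _ _)) h3
    have hX0 : 0 < size a b := one_pos.trans hX1
    refine ⟨a, b, h1, h2, hXH, h4, lt_of_le_of_lt h5 ?_⟩
    have h6 := hT _ hXT.le
    have e1 : size a b ^ (8 / 7 : ℝ) = size a b ^ (1 + ε) * size a b ^ (1 / 7 - ε) := by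
      rw [← Real.rpow_add hX0]
      congr 1
      ring
    have p1 : 0 < size a b ^ (1 + ε) := Real.rpow_pos_of_pos hX0 _
    have p2 : 0 < size a b ^ (8 / 7 : ℝ) := Real.rpow_pos_of_pos hX0 _
    rw [div_lt_div_iff₀ p2 p1, e1]
    calc 10 ^ 120 * Real.log (size a b) ^ 2 * size a b ^ (1 + ε)
        < C ^ m * size a b ^ (1 / 7 - ε) * size a b ^ (1 + ε) := mul_lt_mul_of_pos_right h6 p1
      _ = _ := by ring
  · obtain ⟨T, hT⟩ := Filter.eventually_atTop.1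
      (ev (10 ^ 126) (C ^ m) (3 / 14 - ε) 3 (by linarith) (by positivity) (by positivity))
    obtain ⟨a, b, h1, h2, h3, h4, h5, h7⟩ := main (max (max H T) 1)
    have hX1 : 1 < size a b := lt_of_le_of_lt (le_max_right _ _) h3
    have hXH : H < size a b := lt_of_le_of_lt ((le_max_left _ _).trans (le_max_left _ _)) h3
    have hXT : T < size a b := lt_of_le_of_lt ((le_max_right _ _).trans (le_max_left _ _)) h3
    have hX0 : 0 < size a b := one_pos.trans hX1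
    have hlog : 0 < Real.log (size a b) := Real.log_pos hX1
    refine ⟨a, b, h1, h2, hXH, h4, lt_of_le_of_lt h5 ?_⟩
    have h6 := hT _ hXT.le
    have hCm : 0 < C ^ m := by positivity
    have e1 : size a b ^ (8 / 7 : ℝ) = size a b ^ (1 + ε) * size a b ^ (1 / 7 - ε) := by
      rw [← Real.rpow_add hX0]
      congr 1
      ring
    have e2 : size a b ^ (3 / 14 - ε) = size a b ^ (1 / 7 - ε) * size a b ^ (1 / 14 : ℝ) := by
      rw [← Real.rpow_add hX0]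
      congr 1
      ring
    have p1 : 0 < size a b ^ (1 + ε) := Real.rpow_pos_of_pos hX0 _
    have p2 : 0 < size a b ^ (8 / 7 : ℝ) := Real.rpow_pos_of_pos hX0 _
    have p3 : 0 < size a b ^ (1 / 7 - ε) := Real.rpow_pos_of_pos hX0 _
    rw [div_lt_div_iff₀ p2 p1, e1]
    have h8 : 10 ^ 126 * Real.log (size a b) ^ 3 <
        10 ^ 6 * Real.log (size a b) * (C ^ m * maxB b * size a b ^ (1 / 7 - ε)) := by
      calc 10 ^ 126 * Real.log (size a b) ^ 3 < C ^ m * size a b ^ (3 / 14 - ε) := h6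
        _ = C ^ m * size a b ^ (1 / 7 - ε) * size a b ^ (1 / 14 : ℝ) := by rw [e2]; ring
        _ ≤ C ^ m * size a b ^ (1 / 7 - ε) * (10 ^ 6 * (Real.log (size a b) * maxB b)) :=
            mul_le_mul_of_nonneg_left h7 (by positivity)
        _ = _ := by ring
    have h9 : 10 ^ 120 * Real.log (size a b) ^ 2 < C ^ m * maxB b * size a b ^ (1 / 7 - ε) := by
      have e3 : (10 : ℝ) ^ 126 * Real.log (size a b) ^ 3 =
          10 ^ 6 * Real.log (size a b) * (10 ^ 120 * Real.log (size a b) ^ 2) := by ring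
      rw [e3] at h8
      exact lt_of_mul_lt_mul_left h8 (by positivity)
    calc 10 ^ 120 * Real.log (size a b) ^ 2 * size a b ^ (1 + ε)
        < (C ^ m * maxB b * size a b ^ (1 / 7 - ε)) * size a b ^ (1 + ε) :=
          mul_lt_mul_of_pos_right h9 p1
      _ = C ^ m * maxB b * (size a b ^ (1 + ε) * size a b ^ (1 / 7 - ε)) := by ring

end Pool.Agent.Results.MP_4eb8d9_nt.PowersOfTwo
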